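import Pool.Agent.H.MP_8b3296_mp.D

open MeasureTheory Set Filter
open scoped RealInnerProductSpace

namespace Pool.Agent.Results.MP_369429_mp.Zero

abbrev E := EuclideanSpace ℝ (Fin 3)

/-- `G` is the gradient of `u` in the sense of distributions. -/
def WG (u : E → ℝ) (G : E → E) : Prop :=
  ∀ φ : E → ℝ, ContDiff ℝ (⊤ : ℕ∞) φ → HasCompactSupport φ → ∀ w : E,
    ∫ x, u x * fderiv ℝ φ x w = -∫ x, ⟪G x, w⟫ * φ x

variable {k : ℕ}

/-- Potential of the nuclei. -/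
noncomputable def V (z : Fin k → ℝ) (R : Fin k → E) (x : E) : ℝ := ∑ j, z j / ‖x - R j‖

/-- Repulsion of the nuclei. -/
noncomputable def U (z : Fin k → ℝ) (R : Fin k → E) : ℝ :=
  ∑ i, ∑ j, if i < j then z i * z j / ‖R i - R j‖ else 0

/-- Coulomb self-energy `D(ρ,ρ)`. -/
noncomputable def D (ρ : E → ℝ) : ℝ := 1 / 2 * ∫ q : E × E, ρ q.1 * ρ q.2 / ‖q.1 - q.2‖

noncomputable def J (γ C p t : ℝ) : ℝ := γ / p * t ^ p - 3 * C / 4 * t ^ (4 / 3 : ℝ)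

noncomputable def rho0 (γ C p : ℝ) : ℝ := (C * p / (4 * γ * (p - 1))) ^ (1 / (p - 4 / 3))

noncomputable def alpha (γ C p : ℝ) : ℝ :=
  (3 * p - 4) / (4 * (p - 1)) * rho0 γ C p ^ (1 / 3 : ℝ) * C

noncomputable def Ja (γ C p t : ℝ) : ℝ := J γ C p t + alpha γ C p * t

/-- The energy of the density `ρ`, where `g` is the gradient entering the kinetic term. -/
noncomputable def En (A γ C p : ℝ) (z : Fin k → ℝ) (R : Fin k → E) (ρ : E → ℝ) (g : E → E) : ℝ :=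
  A * (∫ x, ‖g x‖ ^ 2) + (∫ x, Ja γ C p (ρ x)) - (∫ x, V z R x * ρ x) + D ρ + U z R

/-- All integrals in the energy converge. -/
def Conv (γ C p : ℝ) (z : Fin k → ℝ) (R : Fin k → E) (ρ : E → ℝ) (g : E → E) : Prop :=
  Integrable (fun x => ‖g x‖ ^ 2) ∧ Integrable (fun x => Ja γ C p (ρ x)) ∧
    Integrable (fun x => V z R x * ρ x) ∧
    Integrable (fun q : E × E => ρ q.1 * ρ q.2 / ‖q.1 - q.2‖)

/-- Real `ψ ∈ L² ∩ L^{2p}` with gradient `g ∈ L²`. -/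
def Adm (p : ℝ) (ψ : E → ℝ) (g : E → E) : Prop :=
  Measurable ψ ∧ MemLp ψ 2 ∧ MemLp ψ (ENNReal.ofReal (2 * p)) ∧ MemLp g 2 ∧ WG ψ g

/-- Energies of admissible densities `ψ²` of mass `l`. -/
def S (A γ C p : ℝ) (z : Fin k → ℝ) (R : Fin k → E) (l : ℝ) : Set ℝ :=
  {e | ∃ ψ g, Adm p ψ g ∧ ∫ x, ψ x ^ 2 = l ∧ e = En A γ C p z R (fun x => ψ x ^ 2) g}

noncomputable def Ea (A γ C p : ℝ) (z : Fin k → ℝ) (R : Fin k → E) (l : ℝ) : ℝ :=
  sInf (S A γ C p z R l)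

/-- Absolute-minimum points of `Ea` on `[0,∞)`. -/
def AbsMin (A γ C p : ℝ) (z : Fin k → ℝ) (R : Fin k → E) : Set ℝ :=
  {m | 0 ≤ m ∧ ∀ l, 0 ≤ l → Ea A γ C p z R m ≤ Ea A γ C p z R l}

/-- The infima are genuine, and `0 < Z` is the only absolute-minimum point. -/
def Fails (A γ C p : ℝ) (z : Fin k → ℝ) (R : Fin k → E) : Prop :=
  (∀ ψ g, Adm p ψ g → Conv γ C p z R (fun x => ψ x ^ 2) g) ∧
  (∀ l, 0 ≤ l → (S A γ C p z R l).Nonempty ∧ BddBelow (S A γ C p z R l)) ∧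
  AbsMin A γ C p z R = {0} ∧ 0 < ∑ j, z j

open Pool.Agent.H.MP_8b3296_mp in
theorem result (γ C p : ℝ) (hγ : 0 < γ) (hC : 0 < C) (hp : 4 / 3 < p) :
    (∀ A : ℝ, 0 < A → ∃ Z₀ : ℝ, 0 < Z₀ ∧ ∀ (k : ℕ) (z : Fin k → ℝ) (R : Fin k → E), 1 ≤ k →
      (∀ j, 0 < z j) → Function.Injective R → ∑ j, z j ≤ Z₀ → Fails A γ C p z R) ∧
    (∀ (k : ℕ) (z : Fin k → ℝ) (R : Fin k → E), 1 ≤ k → (∀ j, 0 < z j) → Function.Injective R →
      ∃ A₀ : ℝ, 0 < A₀ ∧ ∀ A, A₀ ≤ A → Fails A γ C p z R) := by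
  have hp0 : 0 < p := by linarith
  obtain ⟨κ, hκ, H⟩ := lb2 hγ hC hp
  have key : ∀ (A : ℝ) (k : ℕ) (z : Fin k → ℝ) (R : Fin k → E) (c : ℝ), 0 < c → 1 ≤ k →
      (∀ j, 0 < z j) → (∀ l, ∀ e ∈ S A γ C p z R l, U z R + c * l ≤ e) → Fails A γ C p z R := by
    intro A k z R c hc hk hz h1
    have h2 : ∀ l, 0 ≤ l → (S A γ C p z R l).Nonempty := by
      intro l hl
      obtain ⟨ψ, g, a, b, c, d, f, i⟩ := ex_psi hp0 l hl
      exact ⟨_, ψ, g, ⟨a, b, c, d, f⟩, i, rfl⟩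
    have h3 : ∀ l, 0 ≤ l → U z R + c * l ≤ Ea A γ C p z R l := fun l hl => le_csInf (h2 l hl) (h1 l)
    have h4 : Ea A γ C p z R 0 ≤ U z R := by
      refine csInf_le ⟨_, h1 0⟩ ⟨fun _ => 0, fun _ => 0,
        ⟨measurable_const, MemLp.zero, MemLp.zero, MemLp.zero, wg_zero⟩, by simp, ?_⟩
      have := en_zero (A := A) (z := z) (R := R) (F := fun t => Pool.Agent.H.MP_8b3296_mp.J γ C p t +
        al γ C p * t) (by simp [J_zero hp0])
      simp only [ne_eq, OfNat.ofNat_ne_zero, not_false_eq_true, zero_pow]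
      exact this.symm
    refine ⟨?_, fun l hl => ⟨h2 l hl, _, h1 l⟩, ?_, ?_⟩
    · rintro ψ g ⟨a, b, c, d, f⟩
      have h := ad_psi hp0 a b c d f
      exact ⟨d.norm.integrable_sq, h.iJa, h.iV, h.eD.1⟩
    · ext m
      refine ⟨fun ⟨a, b⟩ => ?_, ?_⟩
      · have := (h3 m a).trans ((b 0 le_rfl).trans h4)
        exact le_antisymm (by nlinarith) a
      · rintro rfl
        exact ⟨le_rfl, fun l hl => h4.trans (le_trans (by nlinarith [mul_nonneg hc.le hl]) (h3 l hl))⟩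
    · have : Nonempty (Fin k) := ⟨⟨0, hk⟩⟩
      exact Finset.sum_pos (fun j _ => hz j) Finset.univ_nonempty
  refine ⟨fun A hA => ?_, fun k z R hk hz _ => ?_⟩
  · obtain ⟨c, hc, H⟩ := H 1 one_pos
    refine ⟨min (A / 2 / (c + 1)) (min (A / 2) 1 * κ / 2), by positivity,
      fun k z R hk hz _ hZ => key A k z R (min (A / 2) 1 * κ / 2) (by positivity) hk hz ?_⟩
    rintro l e ⟨ψ, g, ⟨a, b, c', d, f⟩, rfl, rfl⟩
    refine H A hA k z R hz ?_ (by simpa using hZ.trans (min_le_right _ _)) (ad_psi hp0 a b c' d f)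
    refine (mul_le_mul_of_nonneg_right (hZ.trans (min_le_left _ _)) hc).trans ?_
    rw [div_mul_eq_mul_div, div_le_iff₀ (by positivity)]
    exact mul_le_mul_of_nonneg_left (le_add_of_nonneg_right zero_le_one) (by positivity)
  · have hZ : 0 ≤ ∑ j, z j := Finset.sum_nonneg fun j _ => (hz j).le
    obtain ⟨s, hs⟩ : ∃ s, s = max 1 (2 * (∑ j, z j) / κ) := ⟨_, rfl⟩
    have hs1 : 1 ≤ s := hs ▸ le_max_left _ _
    have hs2 : 2 * (∑ j, z j) / κ ≤ s := hs ▸ le_max_right _ _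
    obtain ⟨c, hc, H⟩ := H s (by positivity)
    refine ⟨max 2 (2 * ((∑ j, z j) * c)), by positivity, fun A hA => ?_⟩
    have h1 := (le_max_left _ _).trans hA
    have h2 := (le_max_right _ _).trans hA
    refine key A k z R (min (A / 2) 1 * κ / 2) (by positivity) hk hz ?_
    rintro l e ⟨ψ, g, ⟨a, b, c', d, f⟩, rfl, rfl⟩
    refine H A (by positivity) k z R hz (by linarith) ?_ (ad_psi hp0 a b c' d f)
    rw [min_eq_right (by linarith), one_mul, ← div_eq_mul_inv, div_le_iff₀ (by positivity)]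
    rw [div_le_iff₀ hκ] at hs2
    have : s ≤ s ^ 3 := le_self_pow₀ hs1 (by norm_num)
    nlinarith

end Pool.Agent.Results.MP_369429_mp.Zero
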